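import Mathlib

namespace Pool.Agent.Results.MP_4e2f3e_nt.Yes

open Finset Pointwise Filter

theorem hit {I : Type} [Fintype I] (q m : ℕ) (S : I → Finset ℕ) (hS : ∀ i, S i ⊆ range q)
    (h : 64 * Fintype.card I * 63 ^ m < 64 ^ m) :
    ∃ U ⊆ range q, 64 * U.card ≤ q ∧ ∀ i, m ≤ (S i).card → ∃ u ∈ U, u ∈ S i := by
  classical
  let bad : I × Fin 64 → Finset (Fin q → Fin 64) := fun p =>
    if m ≤ (S p.1).card then
      Fintype.piFinset fun x => if x.val ∈ S p.1 then univ.erase p.2 else univ else ∅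
  have h1 : ∀ p, (bad p).card * 64 ^ m ≤ 63 ^ m * 64 ^ q := by
    intro p
    simp only [bad]
    split_ifs with hm
    · rw [Fintype.card_piFinset]
      simp only [apply_ite card, card_erase_of_mem (mem_univ _), card_univ, Fintype.card_fin]
      rw [Fin.prod_univ_eq_prod_range (fun x => if x ∈ S p.1 then 64 - 1 else 64) q, prod_ite,
        prod_const, prod_const, filter_mem_eq_inter, inter_eq_right.2 (hS _), ← sdiff_eq_filter,
        card_sdiff_of_subset (hS _), card_range]
      have h2 := card_le_card (hS p.1)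
      rw [card_range] at h2
      obtain ⟨s, hs⟩ := Nat.exists_eq_add_of_le hm
      obtain ⟨t, ht⟩ := Nat.exists_eq_add_of_le h2
      rw [ht, Nat.add_sub_cancel_left, hs, pow_add, pow_add, pow_add]
      have : (64 - 1) ^ s ≤ 64 ^ s := Nat.pow_le_pow_left (by norm_num) s
      calc (64 - 1) ^ m * (64 - 1) ^ s * 64 ^ t * 64 ^ m ≤ 63 ^ m * 64 ^ s * 64 ^ t * 64 ^ m := by
            gcongr
        _ = _ := by ring
    · simp
  have h2 : (univ.biUnion bad).card < (univ : Finset (Fin q → Fin 64)).card := by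
    refine lt_of_mul_lt_mul_right (a := 64 ^ m) ?_ (Nat.zero_le _)
    calc _ ≤ (∑ p, (bad p).card) * 64 ^ m := by gcongr; exact card_biUnion_le
      _ ≤ ∑ _p : I × Fin 64, 63 ^ m * 64 ^ q := by rw [sum_mul]; exact sum_le_sum fun p _ => h1 p
      _ = 64 * Fintype.card I * 63 ^ m * 64 ^ q := by simp; ring
      _ < 64 ^ m * 64 ^ q := by gcongr
      _ = _ := by simp [mul_comm]
  obtain ⟨χ, -, hχ⟩ := exists_mem_notMem_of_card_lt_card h2
  obtain ⟨c, -, hc⟩ := exists_card_fiber_le_of_card_le_nsmul (s := (univ : Finset (Fin q)))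
    (t := (univ : Finset (Fin 64))) (f := χ) (b := (q / 64 : ℚ)) univ_nonempty (by simp; linarith)
  refine ⟨(univ.filter fun x => χ x = c).image Fin.val, fun x hx => ?_, ?_, fun i hi => ?_⟩
  · obtain ⟨y, -, rfl⟩ := mem_image.1 hx
    exact mem_range.2 y.2
  · rw [card_image_of_injective _ Fin.val_injective]
    have : (64 : ℚ) * (univ.filter fun x => χ x = c).card ≤ q := by linarith
    exact_mod_cast this
  · by_contra h3
    push Not at h3
    refine hχ (mem_biUnion.2 ⟨(i, c), mem_univ _, ?_⟩)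
    simp only [bad, if_pos hi, Fintype.mem_piFinset]
    intro x
    split_ifs with hx
    · exact mem_erase.2 ⟨fun e => h3 _ (mem_image_of_mem _ (by simp [e])) hx, mem_univ _⟩
    · exact mem_univ _

theorem side (n q : ℕ) (U : Finset ℕ) (hU : U ⊆ range q) (hc : 64 * U.card ≤ q) (h1 : 8 * q ≤ n)
    (h2 : 100 * n ≤ q * q) (h3 : q * q ≤ 104 * n) (h0 : 0 < q) :
    ∃ E : Finset ℤ, (∀ e ∈ E, 0 ≤ e ∧ e ≤ 32 * n) ∧ (E + E).card ≤ 4 * n ∧
      (∀ y : ℕ, y ≤ 43 * n → ∃ e ∈ E, |y - e| ≤ 13 * n) ∧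
      ∀ y : ℕ, 30 * n ≤ y → y ≤ 62 * n → (y - 30 * n) % q ∈ U → (y : ℤ) ∈ E + E := by
  let P : Finset ℤ := U.image fun u : ℕ => ((30 * n + u : ℕ) : ℤ)
  let V : Finset ℤ := (range (32 * n / q + 1)).image fun j : ℕ => ((q * j : ℕ) : ℤ)
  have hJ : 32 * n / q < q := by
    rw [Nat.div_lt_iff_lt_mul h0]
    nlinarith
  have hV : ∀ y, y ≤ 32 * n → ((q * (y / q) : ℕ) : ℤ) ∈ V := fun y hy =>
    mem_image_of_mem _ (mem_range.2 (Nat.lt_succ_of_le (Nat.div_le_div_right hy)))
  refine ⟨P ∪ V, fun e he => ?_, ?_, fun y hy => ?_, fun y h4 h5 h6 => ?_⟩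
  · rcases mem_union.1 he with he | he <;> obtain ⟨u, hu, rfl⟩ := mem_image.1 he
    · have := mem_range.1 (hU hu)
      omega
    · have := (Nat.le_div_iff_mul_le h0).1 (Nat.le_of_lt_succ (mem_range.1 hu))
      rw [mul_comm] at this
      omega
  · have a1 : P.card ≤ U.card := card_image_le
    have a2 : V.card ≤ q := card_image_le.trans (by rw [card_range]; omega)
    have a3 : (V + V).card ≤ 2 * q := by
      refine (card_le_card (t := (range (2 * q)).image fun j : ℕ => ((q * j : ℕ) : ℤ)) ?_).trans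
        (card_image_le.trans (card_range _).le)
      intro z hz
      obtain ⟨_, ha, _, hb, rfl⟩ := mem_add.1 hz
      obtain ⟨a, ha', rfl⟩ := mem_image.1 ha
      obtain ⟨b, hb', rfl⟩ := mem_image.1 hb
      rw [mem_range] at ha' hb'
      exact mem_image.2 ⟨a + b, mem_range.2 (by omega), by push_cast; ring⟩
    have a4 : (P ∪ V) + (P ∪ V) = P + P ∪ (P + V) ∪ (V + V) := by
      rw [add_union, union_add, union_add, add_comm V P]
      ext z
      simp only [mem_union]
      tauto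
    have a5 : (P + P).card ≤ U.card * q := card_add_le.trans (Nat.mul_le_mul a1 (by omega))
    have a6 : (P + V).card ≤ U.card * q := card_add_le.trans (Nat.mul_le_mul a1 a2)
    have a7 := Nat.mul_le_mul_right q hc
    have a8 := card_union_le (P + P ∪ (P + V)) (V + V)
    have a9 := card_union_le (P + P) (P + V)
    rw [a4]
    rw [mul_assoc] at a7
    omega
  · refine ⟨_, mem_union_right _ (hV (min y (32 * n)) (min_le_right _ _)), ?_⟩
    have a1 := Nat.div_add_mod (min y (32 * n)) q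
    have a2 := Nat.mod_lt (min y (32 * n)) h0
    rw [abs_le]
    omega
  · refine mem_add.2 ⟨_, mem_union_left _ (mem_image_of_mem _ h6), _,
      mem_union_right _ (hV (y - 30 * n) (by omega)), ?_⟩
    have a1 := Nat.div_add_mod (y - 30 * n) q
    omega

theorem ev (η : ℝ) (hη : 0 < η) :
    ∀ᶠ N : ℕ in atTop, ∃ m : ℕ, ((m * m : ℕ) : ℝ) ≤ (N : ℝ) ^ η ∧ 64 * (N * N) * 63 ^ m < 64 ^ m := by
  have h1 : Tendsto (fun N : ℕ => (N : ℝ) ^ (η / 2)) atTop atTop :=
    (tendsto_rpow_atTop (by positivity)).comp tendsto_natCast_atTop_atTop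
  have h2 := (tendsto_rpow_mul_exp_neg_mul_atTop_nhds_zero (4 / η) (1 / 64) (by norm_num)).comp h1
  filter_upwards [h2.eventually (gt_mem_nhds (show (0 : ℝ) < 1 / (64 * Real.exp (1 / 64)) by
    positivity))] with N hN
  have h0 : (0 : ℝ) ≤ N := Nat.cast_nonneg N
  have hx : 0 ≤ (N : ℝ) ^ (η / 2) := by positivity
  refine ⟨⌊(N : ℝ) ^ (η / 2)⌋₊, ?_, ?_⟩
  · have := Nat.floor_le hx
    calc _ ≤ (N : ℝ) ^ (η / 2) * (N : ℝ) ^ (η / 2) := by push_cast; gcongr
      _ = _ := by rw [← Real.rpow_add' h0 (by positivity)]; congr 1; ring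
  · set m := ⌊(N : ℝ) ^ (η / 2)⌋₊
    have h3 : (N : ℝ) ^ (η / 2) < m + 1 := Nat.lt_floor_add_one _
    simp only [Function.comp] at hN
    rw [← Real.rpow_mul h0, show η / 2 * (4 / η) = ((2 : ℕ) : ℝ) by push_cast; field_simp; norm_num,
      Real.rpow_natCast, lt_div_iff₀ (by positivity)] at hN
    have h4 : ((63 : ℝ) / 64) ^ m ≤
        Real.exp (-(1 / 64) * (N : ℝ) ^ (η / 2)) * Real.exp (1 / 64) := by
      calc ((63 : ℝ) / 64) ^ m ≤ Real.exp (-(1 / 64)) ^ m := by
            gcongr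
            linarith [Real.add_one_le_exp (-(1 / 64 : ℝ))]
        _ ≤ _ := by
          rw [← Real.exp_nat_mul, ← Real.exp_add, Real.exp_le_exp]
          linarith
    have h5 : (64 : ℝ) * (N * N) * (63 / 64) ^ m < 1 := by
      calc _ ≤ (64 : ℝ) * (N * N) *
            (Real.exp (-(1 / 64) * (N : ℝ) ^ (η / 2)) * Real.exp (1 / 64)) := by gcongr
        _ < 1 := by linarith
    rw [div_pow, ← mul_div_assoc, div_lt_one (by positivity)] at h5
    exact_mod_cast h5

theorem result (η : ℝ) (hη : 0 < η) : ∃ N₀ : ℕ, ∀ N : ℕ, N.Prime → N₀ ≤ N →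
    ∃ A : Finset (ZMod N), (N : ℝ) / 4 < A.card ∧ ((A + A).card : ℝ) ≤ 99 / 100 * N ∧
      ∀ a d : ZMod N, d ≠ 0 → ∀ k : ℕ, k ≤ N → (∀ j : ℕ, j < k → a + j * d ∉ A + A) →
        (k : ℝ) ≤ (N : ℝ) ^ η := by
  obtain ⟨N₀, hN₀⟩ := eventually_atTop.1 (ev η hη)
  refine ⟨max N₀ 1000000, fun N hp hN => ?_⟩
  obtain ⟨m, hm1, hm2⟩ := hN₀ N (le_of_max_le_left hN)
  have hN1 : 1000000 ≤ N := le_of_max_le_right hN
  have := Fact.mk hp
  obtain ⟨n, hn1, hn2⟩ : ∃ n, 100 * n ≤ N ∧ N < 100 * n + 100 := ⟨N / 100, by omega, by omega⟩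
  obtain ⟨s, hs1, hs2⟩ : ∃ s, s * s ≤ N ∧ N < (s + 1) * (s + 1) :=
    ⟨N.sqrt, Nat.sqrt_le N, Nat.lt_succ_sqrt N⟩
  have hs3 : 999 ≤ s := by nlinarith
  have hs4 : 999 * s ≤ N := by nlinarith
  have hcard : Fintype.card (ZMod N × ZMod N) = N * N := by simp [ZMod.card]
  let r1 : ZMod N → ℕ := fun x => (x.val - 30 * n) % (s + 1)
  let r2 : ZMod N → ℕ := fun x => (N - x.val - 30 * n) % (s + 2)
  obtain ⟨U1, a1, a2, a3⟩ := hit (s + 1) m (fun p : ZMod N × ZMod N =>
    (range (m * m + 1)).image fun j : ℕ => r1 (p.1 + j * p.2)) (fun p x hx => by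
      obtain ⟨j, -, rfl⟩ := mem_image.1 hx
      exact mem_range.2 (Nat.mod_lt _ (by omega))) (by rwa [hcard])
  obtain ⟨U2, b1, b2, b3⟩ := hit (s + 2) m (fun p : ZMod N × ZMod N =>
    (range (m * m + 1)).image fun j : ℕ => r2 (p.1 + j * p.2)) (fun p x hx => by
      obtain ⟨j, -, rfl⟩ := mem_image.1 hx
      exact mem_range.2 (Nat.mod_lt _ (by omega))) (by rwa [hcard])
  obtain ⟨E1, c1, c2, c3, c4⟩ := side n (s + 1) U1 a1 a2 (by omega) (by omega) (by nlinarith)
    (by omega)
  obtain ⟨E2, d1, d2, d3, d4⟩ := side n (s + 2) U2 b1 b2 (by omega) (by nlinarith) (by nlinarith)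
    (by omega)
  let B : Finset ℤ := Icc (-(13 * n : ℤ)) (13 * n) ∪ E1 ∪ -E2
  have himg : ∀ z ∈ B + B, (z : ZMod N) ∈ B.image (Int.cast : ℤ → ZMod N) + B.image Int.cast := by
    intro z hz
    obtain ⟨a, ha, b, hb, rfl⟩ := mem_add.1 hz
    rw [Int.cast_add]
    exact add_mem_add (mem_image_of_mem _ ha) (mem_image_of_mem _ hb)
  have hI : ∀ z : ℤ, |z| ≤ 13 * n → z ∈ B := fun z hz =>
    mem_union_left _ (mem_union_left _ (mem_Icc.2 (abs_le.1 hz)))
  have hE1 : E1 ⊆ B := fun z hz => mem_union_left _ (mem_union_right _ hz)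
  have hE2 : -E2 ⊆ B := subset_union_right
  refine ⟨B.image Int.cast, ?_, ?_, fun a d hd k hk hno => ?_⟩
  · have h1 : ((Icc (-(13 * n : ℤ)) (13 * n)).image (Int.cast : ℤ → ZMod N)).card = 26 * n + 1 := by
      rw [card_image_of_injOn, Int.card_Icc]
      · omega
      intro x hx y hy hxy
      rw [mem_coe, mem_Icc] at hx hy
      have := Int.eq_zero_of_abs_lt_dvd ((ZMod.intCast_eq_intCast_iff_dvd_sub _ _ _).1 hxy)
        (by rw [abs_lt]; omega)
      omega
    have h2 : 26 * n + 1 ≤ (B.image (Int.cast : ℤ → ZMod N)).card :=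
      h1 ▸ card_le_card (image_subset_image (subset_union_left.trans subset_union_left))
    have h3 : N < 4 * (B.image (Int.cast : ℤ → ZMod N)).card := by omega
    have h4 : (N : ℝ) < 4 * (B.image (Int.cast : ℤ → ZMod N)).card := by exact_mod_cast h3
    linarith
  · have h1 : B + B ⊆ Icc (-(45 * n : ℤ)) (45 * n) ∪ (E1 + E1) ∪ -(E2 + E2) := by
      intro z hz
      obtain ⟨a, ha, b, hb, rfl⟩ := mem_add.1 hz
      simp only [B, mem_union, mem_Icc, mem_neg'] at ha hb ⊢
      rcases ha with (ha | ha) | ha <;> rcases hb with (hb | hb) | hb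
      · omega
      · have := c1 _ hb; omega
      · have := d1 _ hb; omega
      · have := c1 _ ha; omega
      · exact Or.inl (Or.inr (add_mem_add ha hb))
      · have := c1 _ ha; have := d1 _ hb; omega
      · have := d1 _ ha; omega
      · have := d1 _ ha; have := c1 _ hb; omega
      · exact Or.inr (neg_add a b ▸ add_mem_add ha hb)
    have h2 := card_le_card h1
    have h3 := card_union_le (Icc (-(45 * n : ℤ)) (45 * n) ∪ (E1 + E1)) (-(E2 + E2))
    have h4 := card_union_le (Icc (-(45 * n : ℤ)) (45 * n)) (E1 + E1)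
    rw [card_neg] at h3
    rw [Int.card_Icc] at h4
    have h5 : (B.image (Int.cast : ℤ → ZMod N) + B.image Int.cast).card ≤ (B + B).card := by
      exact (congrArg card (image_add (Int.castRingHom (ZMod N)))).ge.trans card_image_le
    have h6 : 100 * (B.image (Int.cast : ℤ → ZMod N) + B.image Int.cast).card ≤ 99 * N := by omega
    have h7 : (100 : ℝ) * (B.image (Int.cast : ℤ → ZMod N) + B.image Int.cast).card ≤ 99 * N := by
      exact_mod_cast h6
    linarith
  · by_contra hlt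
    have hk2 : m * m < k := by exact_mod_cast hm1.trans_lt (not_le.1 hlt)
    have key : ∀ x : ZMod N, x ∉ B.image (Int.cast : ℤ → ZMod N) + B.image Int.cast →
        43 * n < x.val ∧ x.val + 43 * n < N ∧ r1 x ∉ U1 ∧ r2 x ∉ U2 := by
      intro x hx
      have hv := x.val_lt
      have e1 : (x.val : ℤ) ∉ B + B := fun h => hx (by simpa using himg _ h)
      have e2 : -((N - x.val : ℕ) : ℤ) ∉ B + B := fun h => hx (by
        have := himg _ h
        rwa [Nat.cast_sub hv.le, neg_sub, Int.cast_sub, Int.cast_natCast, Int.cast_natCast,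
          ZMod.natCast_self, sub_zero, ZMod.natCast_zmod_val] at this)
      have e3 : 43 * n < x.val := by
        by_contra h
        obtain ⟨e, he, h2⟩ := c3 x.val (not_lt.1 h)
        exact e1 (mem_add.2 ⟨e, hE1 he, _, hI _ h2, by ring⟩)
      have e4 : x.val + 43 * n < N := by
        by_contra h
        obtain ⟨e, he, h2⟩ := d3 (N - x.val) (by omega)
        exact e2 (mem_add.2 ⟨-e, hE2 (neg_mem_neg he), _, hI _ ((abs_neg _).trans_le h2), by ring⟩)
      refine ⟨e3, e4, fun h => e1 (add_subset_add hE1 hE1 (c4 _ (by omega) (by omega) h)),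
        fun h => e2 (add_subset_add hE2 hE2 ?_)⟩
      rw [← neg_add]
      exact neg_mem_neg (d4 _ (by omega) (by omega) h)
    have k1 : ∀ j ∈ range (m * m + 1), _ := fun j hj =>
      key _ (hno j (by have := mem_range.1 hj; omega))
    have s1 : ((range (m * m + 1)).image fun j : ℕ => r1 (a + j * d)).card ≤ m := by
      by_contra h
      obtain ⟨u, hu, h2⟩ := a3 (a, d) (not_le.1 h).le
      obtain ⟨j, hj, rfl⟩ := mem_image.1 h2
      exact (k1 j hj).2.2.1 hu
    have s2 : ((range (m * m + 1)).image fun j : ℕ => r2 (a + j * d)).card ≤ m := by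
      by_contra h
      obtain ⟨u, hu, h2⟩ := b3 (a, d) (not_le.1 h).le
      obtain ⟨j, hj, rfl⟩ := mem_image.1 h2
      exact (k1 j hj).2.2.2 hu
    have s3 := card_le_card_of_injOn (s := range (m * m + 1))
      (t := ((range (m * m + 1)).image fun j : ℕ => r1 (a + j * d)) ×ˢ
        ((range (m * m + 1)).image fun j : ℕ => r2 (a + j * d)))
      (fun j => (r1 (a + j * d), r2 (a + j * d)))
      (fun j hj => mem_coe.2 (mem_product.2 ⟨mem_image_of_mem _ hj, mem_image_of_mem _ hj⟩)) (by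
        intro i hi j hj hij
        obtain ⟨i1, i2, -⟩ := k1 i hi
        obtain ⟨j1, j2, -⟩ := k1 j hj
        obtain ⟨t1, t2⟩ := Prod.mk.inj hij
        have t3 := (Nat.modEq_iff_dvd.1 t1)
        have t4 := (Nat.modEq_iff_dvd.1 t2)
        rw [show (((a + j * d).val - 30 * n : ℕ) : ℤ) - ((a + i * d).val - 30 * n : ℕ) =
          (a + j * d).val - (a + i * d).val by omega] at t3
        rw [show ((N - (a + j * d).val - 30 * n : ℕ) : ℤ) - (N - (a + i * d).val - 30 * n : ℕ) =
          -((a + j * d).val - (a + i * d).val) by omega, dvd_neg] at t4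
        have t5 := IsCoprime.mul_dvd (Nat.isCoprime_iff_coprime.2
          ((Nat.coprime_self_add_right (m := s + 1) (n := 1)).2 (Nat.coprime_one_right _))) t3 t4
        have t6 := Int.eq_zero_of_abs_lt_dvd t5 (by
          have : (N : ℤ) < ((s + 1 : ℕ) : ℤ) * ((s + 2 : ℕ) : ℤ) := by
            exact_mod_cast (by nlinarith : N < (s + 1) * (s + 2))
          exact lt_trans (by rw [abs_lt]; omega) this)
        have t7 : a + j * d = a + i * d := ZMod.val_injective N (by omega)
        have t8 := (ZMod.natCast_eq_natCast_iff' _ _ _).1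
          (mul_right_cancel₀ hd (add_left_cancel t7))
        have := mem_range.1 hi
        have := mem_range.1 hj
        rw [Nat.mod_eq_of_lt (by omega), Nat.mod_eq_of_lt (by omega)] at t8
        exact t8.symm)
    rw [card_range, card_product] at s3
    have := Nat.mul_le_mul s1 s2
    omega

end Pool.Agent.Results.MP_4e2f3e_nt.Yes
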